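import Mathlib

set_option autoImplicit false

namespace Pool.Agent.Results.MP_d61c0a_an.OnePoint

open Metric Set Filter Topology

/-! ### Taylor coefficients at zero -/

/-- The `j`-th Taylor coefficient of `g` at zero. -/
noncomputable def cf (j : ℕ) (g : ℂ → ℂ) : ℂ := ((j.factorial : ℂ))⁻¹ * iteratedDeriv j g 0

theorem norm_cf_le (j : ℕ) (g : ℂ → ℂ) (hg : DifferentiableOn ℂ g (ball 0 (2 / 3))) (C : ℝ)
    (hC : ∀ w ∈ ball (0 : ℂ) (2 / 3), ‖g w‖ ≤ C) : ‖cf j g‖ ≤ 2 ^ j * C := by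
  have h := Complex.norm_iteratedDeriv_le_of_forall_mem_sphere_norm_le (f := g) (c := 0)
      (R := 1 / 2) (C := C) j (by norm_num)
      (hg.diffContOnCl_ball (closedBall_subset_ball (by norm_num)))
      (fun w hw => hC w (closedBall_subset_ball (by norm_num) (sphere_subset_closedBall hw)))
  unfold cf
  rw [norm_mul, norm_inv, Complex.norm_natCast]
  have hf : (0 : ℝ) < j.factorial := by exact_mod_cast j.factorial_pos
  calc (j.factorial : ℝ)⁻¹ * ‖iteratedDeriv j g 0‖
      ≤ (j.factorial : ℝ)⁻¹ * (j.factorial * C / (1 / 2) ^ j) := by gcongr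
    _ = 2 ^ j * C := by
      rw [one_div, inv_pow]
      field_simp

theorem contDiffAt_of_diffOn (g : ℂ → ℂ) (hg : DifferentiableOn ℂ g (ball 0 (2 / 3))) (j : ℕ) :
    ContDiffAt ℂ j g 0 :=
  (hg.contDiffOn isOpen_ball).contDiffAt (isOpen_ball.mem_nhds (by simp))

theorem cf_mul (j : ℕ) (f g : ℂ → ℂ) (hf : DifferentiableOn ℂ f (ball 0 (2 / 3)))
    (hg : DifferentiableOn ℂ g (ball 0 (2 / 3))) :
    cf j (fun w => f w * g w) = ∑ i ∈ Finset.range (j + 1), cf i f * cf (j - i) g := by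
  unfold cf
  rw [iteratedDeriv_fun_mul (contDiffAt_of_diffOn f hf j) (contDiffAt_of_diffOn g hg j),
    Finset.mul_sum]
  refine Finset.sum_congr rfl (fun i hi => ?_)
  have hij : i ≤ j := by simpa [Nat.lt_succ_iff] using hi
  have h := Nat.choose_mul_factorial_mul_factorial hij
  have h' : ((j.choose i : ℂ)) * (i.factorial : ℂ) * ((j - i).factorial : ℂ) = (j.factorial : ℂ) := by
    exact_mod_cast h
  have h1 : (i.factorial : ℂ) ≠ 0 := by exact_mod_cast i.factorial_ne_zero
  have h2 : ((j - i).factorial : ℂ) ≠ 0 := by exact_mod_cast (j - i).factorial_ne_zero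
  have h3 : (j.factorial : ℂ) ≠ 0 := by exact_mod_cast j.factorial_ne_zero
  field_simp
  rw [← h']
  ring

theorem cf_add (j : ℕ) (f g : ℂ → ℂ) (hf : DifferentiableOn ℂ f (ball 0 (2 / 3)))
    (hg : DifferentiableOn ℂ g (ball 0 (2 / 3))) :
    cf j (fun w => f w + g w) = cf j f + cf j g := by
  unfold cf
  rw [← mul_add, iteratedDeriv_fun_add (contDiffAt_of_diffOn f hf j) (contDiffAt_of_diffOn g hg j)]

theorem cf_zero (j : ℕ) : cf j (fun _ => 0) = 0 := by
  unfold cf
  simp

theorem cf_const_mul (j : ℕ) (c : ℂ) (f : ℂ → ℂ) :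
    cf j (fun w => c * f w) = c * cf j f := by
  unfold cf
  rw [iteratedDeriv_const_mul_field]
  ring

theorem cf_pow (j m : ℕ) : cf j (fun w => w ^ m) = if j = m then 1 else 0 := by
  unfold cf
  rw [iteratedDeriv_fun_pow_zero]
  split_ifs with h
  · subst h
    simp [Nat.factorial_ne_zero]
  · simp

theorem cf_eq_circleIntegral (j : ℕ) (g : ℂ → ℂ) (hg : DifferentiableOn ℂ g (ball 0 (2 / 3))) :
    cf j g = (2 * Real.pi * Complex.I)⁻¹ *
      ∮ z in C(0, 1 / 2), (z ^ (j + 1))⁻¹ * g z := by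
  have h := (hg.diffContOnCl_ball (R := 1 / 2) (c := 0)
    (closedBall_subset_ball (by norm_num))).circleIntegral_one_div_sub_center_pow_smul
    (by norm_num) j
  simp only [sub_zero, one_div, smul_eq_mul] at h
  unfold cf
  rw [one_div, h]
  have h3 : (j.factorial : ℂ) ≠ 0 := by exact_mod_cast j.factorial_ne_zero
  have h4 : (2 * Real.pi * Complex.I : ℂ) ≠ 0 := Complex.two_pi_I_ne_zero
  field_simp

/-- Holomorphic dependence of an integral on a parameter. -/
theorem diffOn_integral (Ω : Set ℂ) (hΩ : IsOpen Ω) (G : ℂ → ℝ → ℂ) (C : ℝ)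
    (hG : ∀ t, DifferentiableOn ℂ (fun u => G u t) Ω) (hc : ∀ u ∈ Ω, Continuous (G u))
    (hC : ∀ u ∈ Ω, ∀ t, ‖G u t‖ ≤ C) (a b : ℝ) :
    DifferentiableOn ℂ (fun u => ∫ t in a..b, G u t) Ω := by
  intro u₀ hu₀
  obtain ⟨r, hr, hrΩ⟩ := Metric.isOpen_iff.1 hΩ u₀ hu₀
  have hsub : ∀ u ∈ ball u₀ (r / 2), closedBall u (r / 3) ⊆ Ω := by
    intro u hu z hz
    apply hrΩ
    rw [mem_ball] at hu ⊢
    rw [mem_closedBall] at hz
    calc dist z u₀ ≤ dist z u + dist u u₀ := dist_triangle _ _ _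
      _ < r := by linarith
  have hd : ∀ t, ∀ u ∈ ball u₀ (r / 2), HasDerivAt (fun u => G u t) (deriv (fun u => G u t) u) u := by
    intro t u hu
    have huΩ : u ∈ Ω := hsub u hu (by simp; positivity)
    exact ((hG t).differentiableAt (hΩ.mem_nhds huΩ)).hasDerivAt
  have key := intervalIntegral.hasDerivAt_integral_of_dominated_loc_of_deriv_le
    (μ := MeasureTheory.volume) (F := G) (x₀ := u₀) (a := a) (b := b)
    (F' := fun u t => deriv (fun u => G u t) u) (bound := fun _ => C / (r / 3))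
    (ball_mem_nhds u₀ (half_pos hr)) ?_ ?_ ?_ ?_ ?_ ?_
  · exact key.2.differentiableAt.differentiableWithinAt
  · filter_upwards [hΩ.mem_nhds hu₀] with u hu
    exact (hc u hu).aestronglyMeasurable
  · exact (hc u₀ hu₀).intervalIntegrable _ _
  · have hlim : ∀ t, Tendsto (fun n : ℕ => (((1 : ℂ) / ((n : ℂ) + 1)))⁻¹ *
        (G (u₀ + 1 / ((n : ℂ) + 1)) t - G u₀ t)) atTop (𝓝 (deriv (fun u => G u t) u₀)) := by
      intro t
      have h1 := (hd t u₀ (by simp; positivity)).tendsto_slope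
      have h2 : Tendsto (fun n : ℕ => u₀ + 1 / ((n : ℂ) + 1)) atTop (𝓝[≠] u₀) := by
        rw [tendsto_nhdsWithin_iff]
        constructor
        · have := (tendsto_one_div_add_atTop_nhds_zero_nat (𝕜 := ℂ)).const_add u₀
          simpa using this
        · filter_upwards with n
          simp only [mem_compl_iff, mem_singleton_iff, add_eq_left, one_div, inv_eq_zero]
          exact_mod_cast Nat.succ_ne_zero n
      refine (h1.comp h2).congr (fun n => ?_)
      simp only [Function.comp, slope, vsub_eq_sub, smul_eq_mul, add_sub_cancel_left]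
    have hev : ∀ᶠ n : ℕ in atTop, u₀ + 1 / ((n : ℂ) + 1) ∈ Ω := by
      have := (tendsto_one_div_add_atTop_nhds_zero_nat (𝕜 := ℂ)).const_add u₀
      rw [add_zero] at this
      exact this.eventually (hΩ.mem_nhds hu₀)
    obtain ⟨N, hN⟩ := eventually_atTop.1 hev
    refine aestronglyMeasurable_of_tendsto_ae atTop
      (f := fun n : ℕ => fun t => (((1 : ℂ) / (((n + N : ℕ) : ℂ) + 1)))⁻¹ *
        (G (u₀ + 1 / (((n + N : ℕ) : ℂ) + 1)) t - G u₀ t)) (fun n => ?_) ?_
    · have h1 := hc _ (hN (n + N) (by omega))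
      have h2 := hc _ hu₀
      exact (continuous_const.mul (h1.sub h2)).aestronglyMeasurable
    · filter_upwards with t
      exact (hlim t).comp (tendsto_add_atTop_nat N)
  · filter_upwards with t _ u hu
    have h := Complex.norm_deriv_le_of_forall_mem_sphere_norm_le (f := fun u => G u t) (c := u)
      (R := r / 3) (C := C) (by positivity)
      ((hG t).diffContOnCl_ball (hsub u hu))
      (fun z hz => hC z (hsub u hu (sphere_subset_closedBall hz)) t)
    exact h
  · exact intervalIntegrable_const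
  · filter_upwards with t _ u hu
    exact hd t u hu

theorem diffOn_cf (Ω : Set ℂ) (hΩ : IsOpen Ω) (j : ℕ) (G : ℂ → ℂ → ℂ) (C : ℝ)
    (h1 : ∀ u ∈ Ω, DifferentiableOn ℂ (G u) (ball 0 (2 / 3)))
    (h2 : ∀ w ∈ ball (0 : ℂ) (2 / 3), DifferentiableOn ℂ (fun u => G u w) Ω)
    (h3 : ∀ u ∈ Ω, ∀ w ∈ ball (0 : ℂ) (2 / 3), ‖G u w‖ ≤ C) :
    DifferentiableOn ℂ (fun u => cf j (G u)) Ω := by
  have hmem : ∀ t : ℝ, circleMap 0 (1 / 2) t ∈ ball (0 : ℂ) (2 / 3) := by
    intro t
    simp
    norm_num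
  have hne : ∀ t : ℝ, circleMap 0 (1 / 2) t ≠ 0 := by
    intro t h
    have := congrArg norm h
    simp at this
  have hn : ∀ t : ℝ, ‖circleMap 0 (1 / 2) t‖ = 1 / 2 := by
    intro t
    simp
  have h4 : DifferentiableOn ℂ (fun u => (2 * Real.pi * Complex.I)⁻¹ *
      ∫ t in (0 : ℝ)..(2 * Real.pi), (circleMap 0 (1 / 2) t * Complex.I) *
        (((circleMap 0 (1 / 2) t) ^ (j + 1))⁻¹ * G u (circleMap 0 (1 / 2) t))) Ω := by
    refine DifferentiableOn.const_mul ?_ _
    refine diffOn_integral Ω hΩ _ ((1 / 2) * (((1 / 2) ^ (j + 1))⁻¹ * C)) ?_ ?_ ?_ _ _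
    · intro t
      exact (((h2 _ (hmem t)).const_mul _).const_mul _)
    · intro u hu
      have hGc : Continuous (fun t => G u (circleMap 0 (1 / 2) t)) := by
        have := (h1 u hu).continuousOn
        exact this.comp_continuous (continuous_circleMap 0 (1 / 2)) hmem
      have h5 : Continuous (fun t => ((circleMap (0 : ℂ) (1 / 2) t) ^ (j + 1))⁻¹) := by
        refine Continuous.inv₀ ((continuous_circleMap 0 (1 / 2)).pow _) (fun t => ?_)
        exact pow_ne_zero _ (hne t)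
      exact ((continuous_circleMap 0 (1 / 2)).mul continuous_const).mul (h5.mul hGc)
    · intro u hu t
      rw [norm_mul, norm_mul, norm_mul, norm_inv, norm_pow, hn, Complex.norm_I, mul_one]
      have := h3 u hu _ (hmem t)
      gcongr
  refine h4.congr (fun u hu => ?_)
  rw [cf_eq_circleIntegral j (G u) (h1 u hu)]
  congr 1
  unfold circleIntegral
  refine intervalIntegral.integral_congr (fun t _ => ?_)
  simp [deriv_circleMap]

/-! ### Half-plane principle and determinants -/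

/-- A bounded holomorphic function on a half-plane is bounded by its bound on the boundary line. -/
theorem half_plane (H : ℂ → ℂ) (K C : ℝ) (hd : DifferentiableOn ℂ H {u | 1 / 2 < u.re})
    (hK : ∀ u : ℂ, 1 ≤ u.re → ‖H u‖ ≤ K) (hC : ∀ u : ℂ, u.re = 1 → ‖H u‖ ≤ C) :
    ∀ u : ℂ, 1 ≤ u.re → ‖H u‖ ≤ C := by
  intro u hu
  have hcl : closure {z : ℂ | 0 < z.re} ⊆ {z : ℂ | 0 ≤ z.re} := by
    refine closure_minimal (fun z hz => ?_) ?_
    · simp only [mem_ofPred_eq] at hz ⊢
      exact hz.le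
    · exact isClosed_le continuous_const Complex.continuous_re
  have h1 : DifferentiableOn ℂ (fun z => H (1 + z)) (closure {z : ℂ | 0 < z.re}) := by
    intro z hz
    have hz' : 0 ≤ z.re := by simpa using hcl hz
    have hm : (1 + z) ∈ {u : ℂ | 1 / 2 < u.re} := by
      simp only [mem_ofPred_eq, Complex.add_re, Complex.one_re]
      linarith
    have hop : IsOpen {u : ℂ | 1 / 2 < u.re} := isOpen_lt continuous_const Complex.continuous_re
    have h2 : DifferentiableAt ℂ H (1 + z) := hd.differentiableAt (hop.mem_nhds hm)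
    have h3 : DifferentiableAt ℂ (fun z : ℂ => 1 + z) z := by fun_prop
    exact (h2.comp z h3).differentiableWithinAt
  have h := PhragmenLindelof.right_half_plane_of_bounded_on_real (f := fun z => H (1 + z)) (C := C)
    (z := u - 1) h1.diffContOnCl ⟨1, by norm_num, 0, ?_⟩ ?_ ?_ ?_
  · simpa using h
  · refine Asymptotics.IsBigO.of_bound K ?_
    rw [eventually_inf_principal]
    filter_upwards with z hz
    have hz' : 0 < z.re := by simpa using hz
    have := hK (1 + z) (by simp only [Complex.add_re, Complex.one_re]; linarith)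
    simpa using this
  · refine isBoundedUnder_of_eventually_le (a := K) ?_
    filter_upwards [eventually_ge_atTop (0 : ℝ)] with x hx
    exact hK _ (by simp [hx])
  · intro x
    exact hC _ (by simp)
  · simp [hu]

theorem prod_sub_le {ι : Type} (s : Finset ι) (u v : ι → ℂ) (w : ι → ℝ) (θ : ℝ)
    (hw : ∀ j ∈ s, 0 ≤ w j) (hθ : 0 ≤ θ)
    (hu : ∀ j ∈ s, ‖u j‖ ≤ w j) (hv : ∀ j ∈ s, ‖v j‖ ≤ w j)
    (huv : ∀ j ∈ s, ‖u j - v j‖ ≤ θ * w j) :
    ‖∏ j ∈ s, u j - ∏ j ∈ s, v j‖ ≤ s.card * θ * ∏ j ∈ s, w j := by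
  classical
  induction s using Finset.induction_on with
  | empty => simp
  | insert a s ha ih =>
    rw [Finset.prod_insert ha, Finset.prod_insert ha, Finset.prod_insert ha,
      Finset.card_insert_of_notMem ha]
    have ih' := ih (fun j hj => hw j (Finset.mem_insert_of_mem hj))
      (fun j hj => hu j (Finset.mem_insert_of_mem hj))
      (fun j hj => hv j (Finset.mem_insert_of_mem hj))
      (fun j hj => huv j (Finset.mem_insert_of_mem hj))
    have e1 := hu a (Finset.mem_insert_self _ _)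
    have e2 := huv a (Finset.mem_insert_self _ _)
    have e3 := hw a (Finset.mem_insert_self _ _)
    have e4 : ‖∏ j ∈ s, v j‖ ≤ ∏ j ∈ s, w j := by
      rw [norm_prod]
      exact Finset.prod_le_prod (fun _ _ => norm_nonneg _)
        (fun j hj => hv j (Finset.mem_insert_of_mem hj))
    have e5 : 0 ≤ ∏ j ∈ s, w j :=
      Finset.prod_nonneg (fun j hj => hw j (Finset.mem_insert_of_mem hj))
    have heq : u a * ∏ j ∈ s, u j - v a * ∏ j ∈ s, v j =
        u a * (∏ j ∈ s, u j - ∏ j ∈ s, v j) + (u a - v a) * ∏ j ∈ s, v j := by ring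
    rw [heq]
    calc _ ≤ ‖u a‖ * ‖∏ j ∈ s, u j - ∏ j ∈ s, v j‖ + ‖u a - v a‖ * ‖∏ j ∈ s, v j‖ := by
          refine (norm_add_le _ _).trans ?_
          rw [norm_mul, norm_mul]
      _ ≤ w a * (s.card * θ * ∏ j ∈ s, w j) + (θ * w a) * ∏ j ∈ s, w j := by
          gcongr
      _ = _ := by push_cast; ring

theorem det_sub_le {N : ℕ} (U V : Matrix (Fin N) (Fin N) ℂ) (w : Fin N → ℝ) (θ : ℝ)
    (hw : ∀ j, 0 ≤ w j) (hθ : 0 ≤ θ)
    (hu : ∀ i j, ‖U i j‖ ≤ w j) (hv : ∀ i j, ‖V i j‖ ≤ w j)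
    (huv : ∀ i j, ‖U i j - V i j‖ ≤ θ * w j) :
    ‖U.det - V.det‖ ≤ N.factorial * (N * θ * ∏ j, w j) := by
  rw [Matrix.det_apply, Matrix.det_apply, ← Finset.sum_sub_distrib]
  refine (norm_sum_le _ _).trans ?_
  calc _ ≤ ∑ _σ : Equiv.Perm (Fin N), (N * θ * ∏ j, w j) := by
        refine Finset.sum_le_sum (fun σ _ => ?_)
        rw [← smul_sub]
        have h := prod_sub_le Finset.univ (fun i => U (σ i) i) (fun i => V (σ i) i) w θ
          (fun j _ => hw j) hθ (fun j _ => hu _ j) (fun j _ => hv _ j) (fun j _ => huv _ j)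
        rw [Finset.card_univ, Fintype.card_fin] at h
        refine le_trans (le_of_eq ?_) h
        rcases Int.units_eq_one_or (Equiv.Perm.sign σ) with hs | hs
        · rw [hs, one_smul]
        · rw [hs, Units.neg_smul, one_smul, norm_neg]
    _ = _ := by
      rw [Finset.sum_const, Finset.card_univ, Fintype.card_perm, Fintype.card_fin, nsmul_eq_mul]

theorem det_mul_eq_zero {k : ℕ} (A : Matrix (Fin (k + 1)) (Fin k) ℂ)
    (B : Matrix (Fin k) (Fin (k + 1)) ℂ) : (A * B).det = 0 := by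
  by_contra h
  have h1 : IsUnit (A * B) := (Matrix.isUnit_iff_isUnit_det _).2 (isUnit_iff_ne_zero.2 h)
  have h2 := Matrix.rank_of_isUnit (A * B) h1
  have h3 := Matrix.rank_mul_le_left A B
  have h4 := Matrix.rank_le_card_width A
  rw [Fintype.card_fin] at h2 h4
  omega


/-! ### The ball algebra -/

/-- `ℂ^n` with its Euclidean norm. -/
abbrev E (n : ℕ) : Type := EuclideanSpace ℂ (Fin n)

/-- The complex continuous functions on the closed unit ball of `ℂ^n`, with supremum norm. -/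
abbrev CB (n : ℕ) : Type := C(closedBall (0 : E n) 1, ℂ)

/-- The ball algebra `A(B)`: the complex continuous functions on the closed unit ball of `ℂ^n`
which are holomorphic in the open unit ball. -/
def ballAlgebra (n : ℕ) : Set (CB n) :=
  {f | ∃ F : E n → ℂ, DifferentiableOn ℂ F (ball 0 1) ∧
    ∀ z : closedBall (0 : E n) 1, (z : E n) ∈ ball (0 : E n) 1 → f z = F z}

/-- The closure of a set `S` in `A(B)` with respect to the supremum norm. -/
def normClosure (n : ℕ) (S : Set (CB n)) : Set (CB n) :=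
  {f | f ∈ ballAlgebra n ∧ ∀ ε : ℝ, 0 < ε → ∃ g ∈ S, ‖f - g‖ < ε}

/-- `J` is a closed ideal of `A(B)`. -/
def IsClosedIdeal (n : ℕ) (J : Set (CB n)) : Prop :=
  J ⊆ ballAlgebra n ∧ (0 : CB n) ∈ J ∧ (∀ f ∈ J, ∀ g ∈ J, f + g ∈ J) ∧
    (∀ a ∈ ballAlgebra n, ∀ f ∈ J, a * f ∈ J) ∧ normClosure n J ⊆ J

/-- The ideal `{a_1 g_1 + ... + a_k g_k : a_i ∈ A(B)}` of `A(B)` generated by `g_1, ..., g_k`. -/
def genIdeal (n k : ℕ) (g : Fin k → CB n) : Set (CB n) :=
  {f | ∃ a : Fin k → CB n, (∀ t, a t ∈ ballAlgebra n) ∧ f = ∑ t, a t * g t}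

/-- The zero set in the closed ball. -/
def zeroSet (n : ℕ) (J : Set (CB n)) : Set (E n) :=
  {w | ∃ h : w ∈ closedBall (0 : E n) 1, ∀ f ∈ J, f ⟨w, h⟩ = 0}

/-- The ball algebra as a subalgebra. -/
def BA (n : ℕ) : Subalgebra ℂ (CB n) where
  carrier := ballAlgebra n
  mul_mem' := by
    rintro f g ⟨F, hF, hfF⟩ ⟨G, hG, hgG⟩
    refine ⟨fun z => F z * G z, hF.mul hG, fun z hz => ?_⟩
    rw [ContinuousMap.mul_apply, hfF z hz, hgG z hz]
  add_mem' := by
    rintro f g ⟨F, hF, hfF⟩ ⟨G, hG, hgG⟩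
    refine ⟨fun z => F z + G z, hF.add hG, fun z hz => ?_⟩
    rw [ContinuousMap.add_apply, hfF z hz, hgG z hz]
  algebraMap_mem' := by
    intro r
    exact ⟨fun _ => r, differentiableOn_const r, fun z _ => rfl⟩

variable {n : ℕ}

open Classical in
/-- Extension by zero. -/
noncomputable def ex (f : BA n) (z : E n) : ℂ :=
  if h : z ∈ closedBall (0 : E n) 1 then (f : C(closedBall (0 : E n) 1, ℂ)) ⟨z, h⟩ else 0

theorem ex_of_mem (f : BA n) (z : closedBall (0 : E n) 1) :
    ex f z = (f : C(closedBall (0 : E n) 1, ℂ)) z := by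
  unfold ex
  rw [dif_pos z.2]

theorem ex_diff (f : BA n) : DifferentiableOn ℂ (ex f) (ball 0 1) := by
  obtain ⟨F, hF, hfF⟩ := f.2
  refine hF.congr (fun z hz => ?_)
  have := hfF ⟨z, ball_subset_closedBall hz⟩ hz
  rw [← this]
  exact ex_of_mem f ⟨z, ball_subset_closedBall hz⟩

theorem norm_ex_le (f : BA n) (z : E n) : ‖ex f z‖ ≤ ‖f‖ := by
  unfold ex
  split_ifs with h
  · exact ContinuousMap.norm_coe_le_norm (f : C(closedBall (0 : E n) 1, ℂ)) ⟨z, h⟩
  · rw [norm_zero]
    exact norm_nonneg (f : C(closedBall (0 : E n) 1, ℂ))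

theorem ex_mul (f g : BA n) (z : E n) : ex (f * g) z = ex f z * ex g z := by
  unfold ex
  split_ifs with h
  · rfl
  · simp

theorem ex_add (f g : BA n) (z : E n) : ex (f + g) z = ex f z + ex g z := by
  unfold ex
  split_ifs with h
  · rfl
  · simp

theorem ex_zero (z : E n) : ex (0 : BA n) z = 0 := by
  unfold ex
  split_ifs with h
  · rfl
  · simp

/-! ### The half-plane coordinate -/

variable {m : ℕ}

/-- The map `(u, w) ↦ ((u-1)/(u+1), 2w/(u+1), 0, ..., 0)`. -/
noncomputable def Psi (u w : ℂ) : E (m + 2) :=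
  EuclideanSpace.single 0 ((u - 1) / (u + 1)) + EuclideanSpace.single 1 (2 * w / (u + 1))

theorem Psi_zero (u w : ℂ) : (Psi u w : E (m + 2)) 0 = (u - 1) / (u + 1) := by
  simp [Psi]

theorem Psi_one (u w : ℂ) : (Psi u w : E (m + 2)) 1 = 2 * w / (u + 1) := by
  simp [Psi]

theorem ne_of_re {u : ℂ} (hu : 1 / 2 < u.re) : u + 1 ≠ 0 := by
  intro h
  have := congrArg Complex.re h
  simp at this
  linarith

theorem Psi_mem {u w : ℂ} (hu : 1 / 2 < u.re) (hw : w ∈ ball (0 : ℂ) (2 / 3)) :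
    (Psi u w : E (m + 2)) ∈ ball (0 : E (m + 2)) 1 := by
  have hne := ne_of_re hu
  have h1 : ‖(Psi u w : E (m + 2))‖ ^ 2 = ‖(u - 1) / (u + 1)‖ ^ 2 + ‖2 * w / (u + 1)‖ ^ 2 := by
    rw [EuclideanSpace.norm_sq_eq, Fin.sum_univ_succ, Fin.sum_univ_succ]
    have h2 : ∀ i : Fin m, (Psi u w : E (m + 2)) (Fin.succ (Fin.succ i)) = 0 := by
      intro i
      simp only [Psi, PiLp.add_apply, PiLp.single_apply]
      rw [if_neg (Fin.succ_ne_zero _), if_neg, add_zero]
      intro h
      have := congrArg Fin.val h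
      simp at this
    simp only [h2, norm_zero]
    rw [Psi_zero, show (Fin.succ (0 : Fin (m + 1))) = 1 from rfl, Psi_one]
    simp
  rw [mem_ball_zero_iff] at hw ⊢
  have h3 : 0 < ‖u + 1‖ := norm_pos_iff.2 hne
  have h4 : ‖u - 1‖ ^ 2 = (u.re - 1) ^ 2 + u.im ^ 2 := by
    rw [← Complex.normSq_eq_norm_sq, Complex.normSq_apply]
    simp
    ring
  have h5 : ‖u + 1‖ ^ 2 = (u.re + 1) ^ 2 + u.im ^ 2 := by
    rw [← Complex.normSq_eq_norm_sq, Complex.normSq_apply]
    simp
    ring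
  have h6 : ‖w‖ ^ 2 < 1 / 2 := by
    have := norm_nonneg w
    nlinarith
  have h7 : ‖(Psi u w : E (m + 2))‖ ^ 2 < 1 := by
    rw [h1, norm_div, norm_div, div_pow, div_pow, ← add_div, div_lt_one (by positivity)]
    rw [norm_mul, Complex.norm_ofNat, h4, mul_pow]
    rw [h5]
    nlinarith
  have := norm_nonneg (Psi u w : E (m + 2))
  nlinarith

theorem Psi_diff_w (u : ℂ) : Differentiable ℂ (fun w => (Psi u w : E (m + 2))) := by
  unfold Psi
  have h1 : ∀ w : ℂ, (EuclideanSpace.single 1 (2 * w / (u + 1)) : E (m + 2)) =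
      (2 * w / (u + 1)) • EuclideanSpace.single 1 1 := by
    intro w
    ext i
    simp
  simp only [h1]
  fun_prop

theorem Psi_diff_u (w : ℂ) :
    DifferentiableOn ℂ (fun u => (Psi u w : E (m + 2))) {u | 1 / 2 < u.re} := by
  unfold Psi
  have h1 : ∀ u : ℂ, (EuclideanSpace.single 1 (2 * w / (u + 1)) : E (m + 2)) =
      (2 * w / (u + 1)) • EuclideanSpace.single 1 1 := by
    intro w
    ext i
    simp
  have h2 : ∀ u : ℂ, (EuclideanSpace.single 0 ((u - 1) / (u + 1)) : E (m + 2)) =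
      ((u - 1) / (u + 1)) • EuclideanSpace.single 0 1 := by
    intro w
    ext i
    simp
  simp only [h1, h2]
  intro u hu
  have hne := ne_of_re (by simpa using hu)
  have : DifferentiableAt ℂ (fun u : ℂ => ((u - 1) / (u + 1)) • (EuclideanSpace.single 0 1 : E (m + 2))
    + (2 * w / (u + 1)) • (EuclideanSpace.single 1 1 : E (m + 2))) u := by
    fun_prop (disch := assumption)
  exact this.differentiableWithinAt

/-- The Taylor coefficients of `w ↦ f (Psi u w)`. -/
noncomputable def co (j : ℕ) (f : BA (m + 2)) (u : ℂ) : ℂ :=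
  cf j (fun w => ex f (Psi u w))

theorem diff_w (f : BA (m + 2)) {u : ℂ} (hu : 1 / 2 < u.re) :
    DifferentiableOn ℂ (fun w => ex f (Psi u w)) (ball 0 (2 / 3)) :=
  (ex_diff f).comp (Psi_diff_w u).differentiableOn (fun _ hw => Psi_mem hu hw)

theorem norm_co_le (j : ℕ) (f : BA (m + 2)) {u : ℂ} (hu : 1 / 2 < u.re) :
    ‖co j f u‖ ≤ 2 ^ j * ‖f‖ :=
  norm_cf_le j _ (diff_w f hu) _ (fun _ _ => norm_ex_le f _)

theorem co_diff (j : ℕ) (f : BA (m + 2)) :
    DifferentiableOn ℂ (co j f) {u | 1 / 2 < u.re} := by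
  refine diffOn_cf _ (isOpen_lt continuous_const Complex.continuous_re) j
    (fun u w => ex f (Psi u w)) ‖f‖ ?_ ?_ ?_
  · intro u hu
    exact diff_w f (by simpa using hu)
  · intro w hw
    exact (ex_diff f).comp (Psi_diff_u w) (fun u hu => Psi_mem (by simpa using hu) hw)
  · intro u _ w _
    exact norm_ex_le f _

theorem co_mul (j : ℕ) (f g : BA (m + 2)) {u : ℂ} (hu : 1 / 2 < u.re) :
    co j (f * g) u = ∑ i ∈ Finset.range (j + 1), co i f u * co (j - i) g u := by
  unfold co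
  rw [← cf_mul j _ _ (diff_w f hu) (diff_w g hu)]
  simp only [ex_mul]

theorem co_add (j : ℕ) (f g : BA (m + 2)) {u : ℂ} (hu : 1 / 2 < u.re) :
    co j (f + g) u = co j f u + co j g u := by
  unfold co
  rw [← cf_add j _ _ (diff_w f hu) (diff_w g hu)]
  simp only [ex_add]

theorem co_zero (j : ℕ) (u : ℂ) : co j (0 : BA (m + 2)) u = 0 := by
  unfold co
  simp only [ex_zero]
  exact cf_zero j

theorem co_sub (j : ℕ) (f g : BA (m + 2)) {u : ℂ} (hu : 1 / 2 < u.re) :
    co j (f - g) u = co j f u - co j g u := by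
  have h := co_add j (f - g) g hu
  have h2 : f - g + g = f := sub_add_cancel f g
  rw [h2] at h
  rw [h]; ring

theorem co_sum {ι : Type} (s : Finset ι) (j : ℕ) (f : ι → BA (m + 2)) {u : ℂ}
    (hu : 1 / 2 < u.re) : co j (∑ i ∈ s, f i) u = ∑ i ∈ s, co j (f i) u := by
  classical
  induction s using Finset.induction_on with
  | empty => simp [co_zero]
  | insert a s ha ih => rw [Finset.sum_insert ha, Finset.sum_insert ha, co_add _ _ _ hu, ih]

/-! ### The generators -/

/-- The exponents `s_j = 2^{-j}`. -/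
noncomputable def sq (j : ℕ) : ℝ := (1 / 2) ^ j

/-- `q_j(z) = (1 - z) exp(-s_j (1+z)/(1-z))`, a continuous function on the closed disc. -/
noncomputable def qf (j : ℕ) (z : ℂ) : ℂ :=
  (1 - z) * Complex.exp (-(sq j : ℂ) * ((1 + z) / (1 - z)))

theorem sq_pos (j : ℕ) : 0 < sq j := by unfold sq; positivity

theorem re_nonneg_of {z : ℂ} (hz : ‖z‖ ≤ 1) : 0 ≤ ((1 + z) / (1 - z)).re := by
  have h1 : ((1 + z) / (1 - z)).re = (1 - Complex.normSq z) / Complex.normSq (1 - z) := by
    rw [Complex.div_re, ← add_div]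
    congr 1
    rw [Complex.normSq_apply]
    simp
    ring
  rw [h1, Complex.normSq_eq_norm_sq]
  have h2 : ‖z‖ ^ 2 ≤ 1 := by
    have := norm_nonneg z
    nlinarith
  exact div_nonneg (by linarith) (Complex.normSq_nonneg _)

theorem norm_qf_le (j : ℕ) {z : ℂ} (hz : ‖z‖ ≤ 1) : ‖qf j z‖ ≤ ‖1 - z‖ := by
  unfold qf
  rw [norm_mul, Complex.norm_exp]
  have h1 : (-(sq j : ℂ) * ((1 + z) / (1 - z))).re ≤ 0 := by
    rw [← Complex.ofReal_neg, Complex.re_ofReal_mul]
    nlinarith [sq_pos j, re_nonneg_of hz, mul_nonneg (sq_pos j).le (re_nonneg_of hz)]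
  calc _ ≤ ‖1 - z‖ * 1 := by
        gcongr
        exact Real.exp_le_one_iff.2 h1
    _ = _ := mul_one _

theorem qf_diffAt (j : ℕ) {z : ℂ} (hz : z ≠ 1) : DifferentiableAt ℂ (qf j) z := by
  have : 1 - z ≠ 0 := sub_ne_zero.2 hz.symm
  unfold qf
  fun_prop (disch := assumption)

theorem qf_cont (j : ℕ) : ContinuousOn (qf j) (closedBall 0 1) := by
  intro z hz
  by_cases h : z = 1
  · subst h
    have h1 : qf j 1 = 0 := by simp [qf]
    unfold ContinuousWithinAt
    rw [h1]
    refine squeeze_zero_norm' (a := fun z : ℂ => ‖1 - z‖) ?_ ?_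
    · filter_upwards [self_mem_nhdsWithin] with z hz
      exact norm_qf_le j (by simpa using hz)
    · have : Tendsto (fun z : ℂ => ‖1 - z‖) (𝓝 1) (𝓝 ‖(1 : ℂ) - 1‖) :=
        (continuous_const.sub continuous_id).norm.tendsto 1
      rw [sub_self, norm_zero] at this
      exact this.mono_left nhdsWithin_le_nhds
  · exact (qf_diffAt j h).continuousAt.continuousWithinAt

theorem coord_le (z : E n) (i : Fin n) (hz : z ∈ closedBall (0 : E n) 1) : ‖z i‖ ≤ 1 :=
  (PiLp.norm_apply_le z i).trans (by simpa using hz)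

/-- The generators `f_j(z) = z_2^j q_j(z_1)`. -/
noncomputable def fm (j : ℕ) : BA (m + 2) :=
  ⟨⟨fun z => ((z : E (m + 2)) 1) ^ j * qf j ((z : E (m + 2)) 0), by
      have h1 : Continuous (fun z : closedBall (0 : E (m + 2)) 1 => qf j ((z : E (m + 2)) 0)) :=
        (qf_cont j).comp_continuous (by fun_prop) (fun z => by
          simpa using coord_le (z : E (m + 2)) 0 z.2)
      fun_prop⟩,
    ⟨fun z => (z 1) ^ j * qf j (z 0), by
      intro z hz
      have hz1 : z 0 ≠ 1 := by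
        intro h
        have h1 := PiLp.norm_apply_le z (0 : Fin (m + 2))
        rw [h, norm_one] at h1
        simp at hz
        linarith
      have h2 : DifferentiableAt ℂ (fun z : E (m + 2) => qf j (z 0)) z :=
        (qf_diffAt j hz1).comp z (f := fun z : E (m + 2) => z 0) (by fun_prop)
      have h3 : DifferentiableAt ℂ (fun z : E (m + 2) => (z 1) ^ j) z := by fun_prop
      exact (h3.mul h2).differentiableWithinAt, fun z _ => rfl⟩⟩

theorem ex_fm (j : ℕ) (z : E (m + 2)) (hz : z ∈ closedBall (0 : E (m + 2)) 1) :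
    ex (fm j) z = (z 1) ^ j * qf j (z 0) := ex_of_mem (fm j) ⟨z, hz⟩

theorem norm_fm_le (j : ℕ) : ‖(fm j : BA (m + 2))‖ ≤ 2 := by
  change ‖((fm j : BA (m + 2)) : C(closedBall (0 : E (m + 2)) 1, ℂ))‖ ≤ 2
  rw [ContinuousMap.norm_le _ (by norm_num)]
  intro z
  change ‖((z : E (m + 2)) 1) ^ j * qf j ((z : E (m + 2)) 0)‖ ≤ 2
  rw [norm_mul, norm_pow]
  have h0 := coord_le (z : E (m + 2)) 0 z.2
  have h1 := coord_le (z : E (m + 2)) 1 z.2
  have h2 := norm_qf_le j h0
  have h3 : ‖1 - (z : E (m + 2)) 0‖ ≤ 2 := by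
    refine (norm_sub_le _ _).trans ?_
    rw [norm_one]
    linarith
  have h4 := mul_le_mul (pow_le_one₀ (n := j) (norm_nonneg _) h1) (h2.trans h3) (norm_nonneg _)
    zero_le_one
  linarith

theorem co_fm (j i : ℕ) {u : ℂ} (hu : 1 / 2 < u.re) :
    co j (fm i : BA (m + 2)) u =
      if j = i then (2 / (u + 1)) ^ (i + 1) * Complex.exp (-(sq i : ℂ) * u) else 0 := by
  have hne := ne_of_re hu
  have key : ∀ w ∈ ball (0 : ℂ) (2 / 3), ex (fm i : BA (m + 2)) (Psi u w) =
      ((2 / (u + 1)) ^ (i + 1) * Complex.exp (-(sq i : ℂ) * u)) * w ^ i := by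
    intro w hw
    rw [ex_fm i _ (ball_subset_closedBall (Psi_mem hu hw)), Psi_zero, Psi_one]
    unfold qf
    have h1 : 1 - (u - 1) / (u + 1) = 2 / (u + 1) := by field_simp; ring
    have h2 : (1 + (u - 1) / (u + 1)) / (2 / (u + 1)) = u := by field_simp; ring
    rw [h1, h2]
    have h3 : (2 * w / (u + 1)) = (2 / (u + 1)) * w := by ring
    rw [h3, mul_pow, pow_succ]
    ring
  have h1 : co j (fm i : BA (m + 2)) u =
      cf j (fun w => ((2 / (u + 1)) ^ (i + 1) * Complex.exp (-(sq i : ℂ) * u)) * w ^ i) := by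
    unfold co cf
    congr 1
    apply Filter.EventuallyEq.iteratedDeriv_eq
    exact Filter.eventuallyEq_of_mem (isOpen_ball.mem_nhds (by simp)) key
  rw [h1, cf_const_mul, cf_pow]
  split_ifs <;> simp


/-! ### The ideal and the division lemma -/

/-- The ideal generated by the functions `f_j`. -/
noncomputable def I0 : Ideal (BA (m + 2)) := Ideal.span (Set.range fm)

theorem sq_anti {i j : ℕ} (h : i ≤ j) : sq j ≤ sq i := by
  unfold sq
  exact pow_le_pow_of_le_one (by norm_num) (by norm_num) h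

theorem sq_le_one (j : ℕ) : sq j ≤ 1 := by
  unfold sq
  exact pow_le_one₀ (by norm_num) (by norm_num)

theorem norm_two_div_le {u : ℂ} (hu : 1 ≤ u.re) : ‖2 / (u + 1)‖ ≤ 1 := by
  have h1 : (2 : ℝ) ≤ ‖u + 1‖ := by
    calc (2 : ℝ) ≤ (u + 1).re := by simp; linarith
      _ ≤ ‖u + 1‖ := Complex.re_le_norm _
  rw [norm_div, Complex.norm_ofNat, div_le_one (by linarith)]
  exact h1

theorem norm_cexp (s : ℝ) (u : ℂ) : ‖Complex.exp (-(s : ℂ) * u)‖ = Real.exp (-s * u.re) := by
  rw [Complex.norm_exp, ← Complex.ofReal_neg, Complex.re_ofReal_mul]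

theorem div_alg (g : BA (m + 2)) (hg : g ∈ (I0 : Ideal (BA (m + 2)))) :
    ∀ j : ℕ, ∃ K : ℝ, 0 ≤ K ∧ ∀ u : ℂ, 1 ≤ u.re → ‖co j g u‖ ≤ K * Real.exp (-sq j * u.re) := by
  induction hg using Submodule.span_induction with
  | mem x hx =>
    obtain ⟨i, rfl⟩ := hx
    intro j
    refine ⟨1, by norm_num, fun u hu => ?_⟩
    rw [co_fm j i (by linarith)]
    split_ifs with h
    · subst h
      rw [norm_mul, norm_pow, norm_cexp]
      gcongr
      exact pow_le_one₀ (norm_nonneg _) (norm_two_div_le hu)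
    · rw [norm_zero]
      positivity
  | zero =>
    intro j
    refine ⟨0, le_rfl, fun u _ => ?_⟩
    rw [co_zero, norm_zero, zero_mul]
  | add x y _ _ hx hy =>
    intro j
    obtain ⟨K1, hK1, h1⟩ := hx j
    obtain ⟨K2, hK2, h2⟩ := hy j
    refine ⟨K1 + K2, by positivity, fun u hu => ?_⟩
    rw [co_add _ _ _ (by linarith), add_mul]
    exact (norm_add_le _ _).trans (add_le_add (h1 u hu) (h2 u hu))
  | smul a x _ hx =>
    intro j
    choose K hK h using hx
    refine ⟨∑ i ∈ Finset.range (j + 1), (2 ^ i * ‖a‖) * K (j - i), ?_, fun u hu => ?_⟩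
    · refine Finset.sum_nonneg (fun i _ => ?_)
      have := hK (j - i)
      have := norm_nonneg a
      positivity
    · rw [smul_eq_mul, co_mul _ _ _ (by linarith), Finset.sum_mul]
      refine (norm_sum_le _ _).trans (Finset.sum_le_sum (fun i _ => ?_))
      rw [norm_mul, mul_assoc]
      have h1 := norm_co_le i a (u := u) (by linarith)
      have h2 := h (j - i) u hu
      have h3 : Real.exp (-sq (j - i) * u.re) ≤ Real.exp (-sq j * u.re) := by
        apply Real.exp_le_exp.2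
        have := sq_anti (Nat.sub_le j i)
        nlinarith
      have h4 := hK (j - i)
      calc _ ≤ (2 ^ i * ‖a‖) * (K (j - i) * Real.exp (-sq (j - i) * u.re)) := by gcongr
        _ ≤ _ := by gcongr

theorem div_lemma (g : BA (m + 2)) (hg : g ∈ (I0 : Ideal (BA (m + 2)))) (j : ℕ)
    (u : ℂ) (hu : 1 ≤ u.re) : ‖co j g u‖ ≤ 2 ^ j * ‖g‖ * Real.exp 1 * Real.exp (-sq j * u.re) := by
  obtain ⟨K, hK, hKb⟩ := div_alg g hg j
  have key := half_plane (fun u => co j g u * Complex.exp ((sq j : ℂ) * u)) K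
    (2 ^ j * ‖g‖ * Real.exp 1) ?_ ?_ ?_ u hu
  · rw [norm_mul, Complex.norm_exp, Complex.re_ofReal_mul] at key
    have h1 : ‖co j g u‖ = (‖co j g u‖ * Real.exp (sq j * u.re)) * Real.exp (-sq j * u.re) := by
      rw [mul_assoc, ← Real.exp_add]
      simp
    rw [h1]
    gcongr
  · refine (co_diff j g).mul ?_
    fun_prop
  · intro u hu
    rw [norm_mul, Complex.norm_exp, Complex.re_ofReal_mul]
    have h1 := hKb u hu
    calc _ ≤ (K * Real.exp (-sq j * u.re)) * Real.exp (sq j * u.re) := by gcongr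
      _ = K := by
        rw [mul_assoc, ← Real.exp_add]
        simp
  · intro u hu
    rw [norm_mul, Complex.norm_exp, Complex.re_ofReal_mul, hu, mul_one]
    have h1 := norm_co_le j g (u := u) (by linarith)
    have h2 := sq_le_one j
    have h3 : 0 ≤ 2 ^ j * ‖g‖ := (norm_nonneg _).trans h1
    gcongr

theorem div_closure (g : BA (m + 2))
    (hg : g ∈ closure ((I0 : Ideal (BA (m + 2))) : Set (BA (m + 2)))) (j : ℕ)
    (u : ℂ) (hu : 1 ≤ u.re) : ‖co j g u‖ ≤ 2 ^ j * ‖g‖ * Real.exp 1 * Real.exp (-sq j * u.re) := by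
  refine le_of_forall_pos_le_add (fun η hη => ?_)
  have hu' : 1 / 2 < u.re := by linarith
  set X : ℝ := Real.exp 1 * Real.exp (-sq j * u.re) with hX
  have hXpos : 0 < X := by positivity
  obtain ⟨g', hg', hd⟩ := Metric.mem_closure_iff.1 hg (η / (2 ^ j * (X + 1))) (by positivity)
  replace hd : ‖g - g'‖ < η / (2 ^ j * (X + 1)) := lt_of_eq_of_lt (dist_eq_norm g g').symm hd
  have h1 := div_lemma g' hg' j u hu
  have h2 := norm_co_le j (g - g') hu'
  rw [co_sub _ _ _ hu'] at h2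
  have h3 : ‖g'‖ ≤ ‖g‖ + ‖g - g'‖ := by
    have h := norm_sub_le g (g - g')
    have h' : g - (g - g') = g' := sub_sub_cancel g g'
    rwa [h'] at h
  have h4 : ‖co j g u‖ ≤ ‖co j g' u‖ + ‖co j g u - co j g' u‖ := by
    calc ‖co j g u‖ = ‖co j g' u + (co j g u - co j g' u)‖ := by ring_nf
      _ ≤ _ := norm_add_le _ _
  have h5 : 2 ^ j * ‖g - g'‖ * (X + 1) ≤ η := by
    have : ‖g - g'‖ * (2 ^ j * (X + 1)) ≤ η := (le_div_iff₀ (by positivity)).1 hd.le
    linarith
  rw [mul_assoc, ← hX] at h1 ⊢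
  have h6 : (0 : ℝ) < 2 ^ j := by positivity
  nlinarith [mul_le_mul_of_nonneg_left h3 h6.le, norm_nonneg (g - g'), norm_nonneg g',
    mul_le_mul_of_nonneg_right (mul_le_mul_of_nonneg_left h3 h6.le) hXpos.le]


theorem sq_step {j l k : ℕ} (hl : l < j) (hj : j ≤ k) : sq j + sq k ≤ sq l := by
  have h1 : sq (j - 1) ≤ sq l := sq_anti (by omega)
  have h2 : sq (j - 1) = 2 * sq j := by
    unfold sq
    obtain ⟨i, rfl⟩ : ∃ i, j = i + 1 := ⟨j - 1, by omega⟩
    simp only [Nat.add_sub_cancel, pow_succ]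
    ring
  have h3 := sq_anti hj
  linarith

/-- The constant in the estimates for a product. -/
noncomputable def cst (a g : BA (m + 2)) (j : ℕ) : ℝ :=
  ∑ l ∈ Finset.range (j + 1), (2 ^ l * ‖a‖) * (2 ^ (j - l) * ‖g‖ * Real.exp 1)

theorem cst_term_nonneg (a g : BA (m + 2)) (j l : ℕ) :
    0 ≤ (2 ^ l * ‖a‖) * (2 ^ (j - l) * ‖g‖ * Real.exp 1) := by
  have h1 := norm_nonneg a
  have h2 := norm_nonneg g
  positivity

theorem cst_nonneg (a g : BA (m + 2)) (j : ℕ) : 0 ≤ cst a g j :=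
  Finset.sum_nonneg (fun l _ => cst_term_nonneg a g j l)

theorem term_bound (a g : BA (m + 2))
    (hg : g ∈ closure ((I0 : Ideal (BA (m + 2))) : Set (BA (m + 2))))
    (j l : ℕ) (u : ℂ) (hu : 1 ≤ u.re) :
    ‖co l a u * co (j - l) g u‖ ≤
      (2 ^ l * ‖a‖) * (2 ^ (j - l) * ‖g‖ * Real.exp 1) * Real.exp (-sq (j - l) * u.re) := by
  rw [norm_mul, mul_assoc]
  have h1 := norm_co_le l a (u := u) (by linarith)
  have h2 := div_closure g hg (j - l) u hu
  exact mul_le_mul h1 h2 (norm_nonneg _) ((norm_nonneg _).trans h1)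

theorem prod_bound1 (a g : BA (m + 2))
    (hg : g ∈ closure ((I0 : Ideal (BA (m + 2))) : Set (BA (m + 2))))
    (j : ℕ) (u : ℂ) (hu : 1 ≤ u.re) :
    ‖co j (a * g) u‖ ≤ cst a g j * Real.exp (-sq j * u.re) := by
  rw [co_mul _ _ _ (by linarith), cst, Finset.sum_mul]
  refine (norm_sum_le _ _).trans (Finset.sum_le_sum (fun l _ => ?_))
  refine (term_bound a g hg j l u hu).trans ?_
  have h3 : Real.exp (-sq (j - l) * u.re) ≤ Real.exp (-sq j * u.re) := by
    apply Real.exp_le_exp.2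
    have := sq_anti (Nat.sub_le j l)
    nlinarith
  exact mul_le_mul_of_nonneg_left h3 (cst_term_nonneg a g j l)

theorem prod_bound2 (a g : BA (m + 2))
    (hg : g ∈ closure ((I0 : Ideal (BA (m + 2))) : Set (BA (m + 2))))
    (j : ℕ) (u : ℂ) (hu : 1 ≤ u.re) :
    ‖co 0 a u * co j g u‖ ≤ cst a g j * Real.exp (-sq j * u.re) := by
  have h1 := term_bound a g hg j 0 u hu
  have h2 := Finset.single_le_sum (s := Finset.range (j + 1)) (a := 0)
    (f := fun l => (2 ^ l * ‖a‖) * (2 ^ (j - l) * ‖g‖ * Real.exp 1))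
    (fun l _ => cst_term_nonneg a g j l) (Finset.mem_range.2 (Nat.succ_pos j))
  simp only [Nat.sub_zero] at h1 h2
  exact h1.trans (mul_le_mul_of_nonneg_right h2 (Real.exp_pos _).le)

theorem prod_bound3 (a g : BA (m + 2))
    (hg : g ∈ closure ((I0 : Ideal (BA (m + 2))) : Set (BA (m + 2))))
    (j k : ℕ) (hjk : j ≤ k) (u : ℂ) (hu : 1 ≤ u.re) :
    ‖co j (a * g) u - co 0 a u * co j g u‖ ≤
      Real.exp (-sq k * u.re) * (cst a g j * Real.exp (-sq j * u.re)) := by
  rw [co_mul _ _ _ (by linarith), Finset.sum_range_succ', Nat.sub_zero, add_sub_cancel_right]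
  refine (norm_sum_le _ _).trans ?_
  have h1 : ∀ l ∈ Finset.range j, ‖co (l + 1) a u * co (j - (l + 1)) g u‖ ≤
      ((2 ^ (l + 1) * ‖a‖) * (2 ^ (j - (l + 1)) * ‖g‖ * Real.exp 1)) *
        (Real.exp (-sq k * u.re) * Real.exp (-sq j * u.re)) := by
    intro l hl
    rw [Finset.mem_range] at hl
    refine (term_bound a g hg j (l + 1) u hu).trans ?_
    have h3 : Real.exp (-sq (j - (l + 1)) * u.re) ≤
        Real.exp (-sq k * u.re) * Real.exp (-sq j * u.re) := by
      rw [← Real.exp_add]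
      apply Real.exp_le_exp.2
      have := sq_step (j := j) (l := j - (l + 1)) (k := k) (by omega) hjk
      nlinarith
    exact mul_le_mul_of_nonneg_left h3 (cst_term_nonneg a g j (l + 1))
  refine (Finset.sum_le_sum h1).trans ?_
  rw [← Finset.sum_mul]
  have h2 : ∑ l ∈ Finset.range j, (2 ^ (l + 1) * ‖a‖) * (2 ^ (j - (l + 1)) * ‖g‖ * Real.exp 1) ≤
      cst a g j := by
    unfold cst
    rw [Finset.sum_range_succ' (fun l => (2 ^ l * ‖a‖) * (2 ^ (j - l) * ‖g‖ * Real.exp 1)) j]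
    have := cst_term_nonneg a g j 0
    linarith
  calc _ ≤ cst a g j * (Real.exp (-sq k * u.re) * Real.exp (-sq j * u.re)) := by gcongr
    _ = _ := by ring

/-- The sum of the first exponents. -/
noncomputable def Ssum (k : ℕ) : ℝ := ∑ j : Fin (k + 1), sq j

/-- The constant which does not depend on the multipliers. -/
noncomputable def C0 (k : ℕ) : ℝ :=
  (k + 1).factorial * ((k + 1 : ℕ) * ∏ _j : Fin (k + 1), (3 * 2 ^ k : ℝ))

theorem C0_nonneg (k : ℕ) : 0 ≤ C0 k := by unfold C0; positivity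

theorem prod_w (k : ℕ) (K x : ℝ) : ∏ j : Fin (k + 1), (K * Real.exp (-sq j * x)) =
    K ^ (k + 1) * Real.exp (-Ssum k * x) := by
  rw [Finset.prod_mul_distrib, Finset.prod_const, Finset.card_univ, Fintype.card_fin,
    ← Real.exp_sum]
  congr 2
  rw [← Finset.sum_mul, Finset.sum_neg_distrib, Ssum]

theorem det_diff {N : ℕ} (F : ℂ → Matrix (Fin N) (Fin N) ℂ) (s : Set ℂ)
    (h : ∀ i j, DifferentiableOn ℂ (fun u => F u i j) s) :
    DifferentiableOn ℂ (fun u => (F u).det) s := by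
  simp only [Matrix.det_apply']
  refine DifferentiableOn.fun_sum (fun σ _ => ?_)
  refine DifferentiableOn.const_mul ?_ _
  exact DifferentiableOn.fun_finsetProd (fun i _ => h _ _)

theorem det_bound {k : ℕ} (U : Matrix (Fin (k + 1)) (Fin (k + 1)) ℂ)
    (hU : ∀ i j, ‖U i j‖ ≤ 3 * 2 ^ k) : ‖U.det‖ ≤ C0 k := by
  have h := det_sub_le U 0 (fun _ => 3 * 2 ^ k) 1 (fun _ => by positivity) zero_le_one hU
    (fun _ _ => by rw [Matrix.zero_apply, norm_zero]; positivity)
    (fun i j => by rw [Matrix.zero_apply, sub_zero, one_mul]; exact hU i j)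
  rw [Matrix.det_zero, sub_zero, mul_one] at h
  exact h

theorem det_key {k : ℕ} (g : Fin k → BA (m + 2))
    (hg : ∀ t, g t ∈ closure ((I0 : Ideal (BA (m + 2))) : Set (BA (m + 2))))
    (a : Fin (k + 1) → Fin k → BA (m + 2))
    (ha : ∀ i, ‖∑ t, a i t * g t‖ ≤ 3) (u : ℂ) (hu : 1 ≤ u.re) :
    ‖(Matrix.of fun i j : Fin (k + 1) => co j (∑ t, a i t * g t) u).det‖ ≤
      C0 k * Real.exp (Ssum k + sq k) * Real.exp (-(Ssum k + sq k) * u.re) := by
  set Ft : ℂ → Matrix (Fin (k + 1)) (Fin (k + 1)) ℂ :=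
    fun u => Matrix.of fun i j : Fin (k + 1) => co j (∑ t, a i t * g t) u with hFt
  set K : ℝ := ∑ i, ∑ j : Fin (k + 1), ∑ t, cst (a i t) (g t) j with hK
  have hKij : ∀ i, ∀ j : Fin (k + 1), ∑ t, cst (a i t) (g t) j ≤ K := by
    intro i j
    have h1 : ∑ t, cst (a i t) (g t) j ≤ ∑ j : Fin (k + 1), ∑ t, cst (a i t) (g t) j :=
      Finset.single_le_sum (f := fun j : Fin (k + 1) => ∑ t, cst (a i t) (g t) j)
        (fun j _ => Finset.sum_nonneg (fun t _ => cst_nonneg _ _ _)) (Finset.mem_univ j)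
    have h2 : ∑ j : Fin (k + 1), ∑ t, cst (a i t) (g t) j ≤ K :=
      Finset.single_le_sum (f := fun i => ∑ j : Fin (k + 1), ∑ t, cst (a i t) (g t) j)
        (fun i _ => Finset.sum_nonneg (fun j _ => Finset.sum_nonneg (fun t _ => cst_nonneg _ _ _)))
        (Finset.mem_univ i)
    exact h1.trans h2
  have hK0 : 0 ≤ K := Finset.sum_nonneg (fun i _ => Finset.sum_nonneg
    (fun j _ => Finset.sum_nonneg (fun t _ => cst_nonneg _ _ _)))
  have key := half_plane (fun u => (Ft u).det * Complex.exp (((Ssum k + sq k : ℝ) : ℂ) * u))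
    ((k + 1).factorial * ((k + 1 : ℕ) * K ^ (k + 1))) (C0 k * Real.exp (Ssum k + sq k))
    ?_ ?_ ?_ u hu
  · rw [norm_mul, Complex.norm_exp, Complex.re_ofReal_mul] at key
    have h1 : ‖(Ft u).det‖ = (‖(Ft u).det‖ * Real.exp ((Ssum k + sq k) * u.re)) *
        Real.exp (-(Ssum k + sq k) * u.re) := by
      rw [mul_assoc, ← Real.exp_add]
      have : (Ssum k + sq k) * u.re + -(Ssum k + sq k) * u.re = 0 := by ring
      rw [this, Real.exp_zero, mul_one]
    rw [h1]
    gcongr
  · refine (det_diff Ft _ (fun i j => co_diff j _)).mul ?_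
    fun_prop
  · intro u hu
    have hu' : 1 / 2 < u.re := by linarith
    rw [norm_mul, Complex.norm_exp, Complex.re_ofReal_mul]
    set A : Matrix (Fin (k + 1)) (Fin k) ℂ := Matrix.of fun i t => co 0 (a i t) u with hA
    set B : Matrix (Fin k) (Fin (k + 1)) ℂ := Matrix.of fun t j => co j (g t) u with hB
    have hAB : ∀ i j, (A * B) i j = ∑ t, co 0 (a i t) u * co j (g t) u := by
      intro i j
      rw [Matrix.mul_apply]
      rfl
    have hF : ∀ i j, Ft u i j = ∑ t, co j (a i t * g t) u := by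
      intro i j
      change co j (∑ t, a i t * g t) u = _
      rw [co_sum _ _ _ hu']
    have h := det_sub_le (Ft u) (A * B) (fun j => K * Real.exp (-sq j * u.re))
      (Real.exp (-sq k * u.re)) (fun j => by positivity) (Real.exp_pos _).le ?_ ?_ ?_
    · rw [det_mul_eq_zero, sub_zero, prod_w] at h
      calc _ ≤ ((k + 1).factorial * ((k + 1 : ℕ) * Real.exp (-sq k * u.re) *
            (K ^ (k + 1) * Real.exp (-Ssum k * u.re)))) * Real.exp ((Ssum k + sq k) * u.re) := by
            gcongr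
        _ = (k + 1).factorial * ((k + 1 : ℕ) * K ^ (k + 1)) * (Real.exp (-sq k * u.re) *
            Real.exp (-Ssum k * u.re) * Real.exp ((Ssum k + sq k) * u.re)) := by ring
        _ = _ := by
          rw [← Real.exp_add, ← Real.exp_add]
          have : -sq k * u.re + -Ssum k * u.re + (Ssum k + sq k) * u.re = 0 := by ring
          rw [this, Real.exp_zero, mul_one]
    · intro i j
      rw [hF]
      refine (norm_sum_le _ _).trans ((Finset.sum_le_sum
        (fun t _ => prod_bound1 (a i t) (g t) (hg t) j u hu)).trans ?_)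
      rw [← Finset.sum_mul]
      have := hKij i j
      gcongr
    · intro i j
      rw [hAB]
      refine (norm_sum_le _ _).trans ((Finset.sum_le_sum
        (fun t _ => prod_bound2 (a i t) (g t) (hg t) j u hu)).trans ?_)
      rw [← Finset.sum_mul]
      have := hKij i j
      gcongr
    · intro i j
      rw [hF, hAB, ← Finset.sum_sub_distrib]
      refine (norm_sum_le _ _).trans ((Finset.sum_le_sum
        (fun t _ => prod_bound3 (a i t) (g t) (hg t) j k (by omega) u hu)).trans ?_)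
      rw [← Finset.mul_sum, ← Finset.sum_mul]
      have := hKij i j
      gcongr
  · intro u hu
    rw [norm_mul, Complex.norm_exp, Complex.re_ofReal_mul, hu, mul_one]
    gcongr
    apply det_bound
    intro i j
    change ‖co j (∑ t, a i t * g t) u‖ ≤ _
    refine (norm_co_le j _ (by linarith)).trans ?_
    have h1 : (2 : ℝ) ^ (j : ℕ) ≤ 2 ^ k := pow_le_pow_right₀ (by norm_num) (by omega)
    have h2 := ha i
    have h3 : (0 : ℝ) < 2 ^ (j : ℕ) := by positivity
    nlinarith

theorem det_fm (k : ℕ) (x : ℝ) (hx : 1 ≤ x) :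
    (1 / x) ^ ((k + 1) * (k + 1)) * Real.exp (-Ssum k * x) ≤
      ‖(Matrix.of fun i j : Fin (k + 1) => co j (fm i : BA (m + 2)) (x : ℂ)).det‖ := by
  have h1 : (Matrix.of fun i j : Fin (k + 1) => co j (fm i : BA (m + 2)) (x : ℂ)) =
      Matrix.diagonal (fun i : Fin (k + 1) => (2 / ((x : ℂ) + 1)) ^ ((i : ℕ) + 1) *
        Complex.exp (-(sq i : ℂ) * x)) := by
    ext i j
    rw [Matrix.of_apply, Matrix.diagonal_apply, co_fm _ _ (by simp; linarith)]
    by_cases h : i = j
    · subst h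
      simp
    · have h' : ¬ ((j : ℕ) = (i : ℕ)) := fun h'' => h (Fin.ext h''.symm)
      rw [if_neg h', if_neg h]
  rw [h1, Matrix.det_diagonal, norm_prod]
  have h2 : (1 / x) ^ ((k + 1) * (k + 1)) * Real.exp (-Ssum k * x) =
      ∏ j : Fin (k + 1), ((1 / x) ^ (k + 1) * Real.exp (-sq j * x)) := by
    rw [prod_w, ← pow_mul]
  rw [h2]
  refine Finset.prod_le_prod (fun i _ => by positivity) (fun i _ => ?_)
  rw [norm_mul, norm_cexp, norm_pow, Complex.ofReal_re]
  have h3 : ‖2 / ((x : ℂ) + 1)‖ = 2 / (x + 1) := by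
    rw [norm_div, Complex.norm_ofNat, ← Complex.ofReal_one, ← Complex.ofReal_add,
      Complex.norm_real, Real.norm_of_nonneg (by linarith)]
  have h4 : 1 / x ≤ 2 / (x + 1) := by
    rw [div_le_div_iff₀ (by linarith) (by linarith)]
    linarith
  have h5 : 1 / x ≤ 1 := by
    rw [div_le_one (by linarith)]
    exact hx
  rw [h3]
  gcongr
  calc (1 / x) ^ (k + 1) ≤ (1 / x) ^ ((i : ℕ) + 1) :=
        pow_le_pow_of_le_one (by positivity) h5 (by omega)
    _ ≤ (2 / (x + 1)) ^ ((i : ℕ) + 1) := by gcongr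

theorem growth_contra (C δ : ℝ) (N : ℕ) (hδ : 0 < δ)
    (h : ∀ x : ℝ, 1 ≤ x → (1 / x) ^ N ≤ C * Real.exp (-δ * x)) : False := by
  have h1 := Real.tendsto_pow_mul_exp_neg_atTop_nhds_zero N
  have h2 : Tendsto (fun x : ℝ => δ * x) atTop atTop := tendsto_id.const_mul_atTop hδ
  have h3 := ((h1.comp h2).const_mul (|C| * (1 / δ) ^ N))
  rw [mul_zero] at h3
  have h4 := (h3.eventually (gt_mem_nhds (show (0 : ℝ) < 1 by norm_num))).and
    (eventually_ge_atTop (1 : ℝ))
  obtain ⟨x, hx1, hx2⟩ := h4.exists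
  have h5 := h x hx2
  have hxpos : 0 < x := by linarith
  have h6 : (1 : ℝ) ≤ C * Real.exp (-δ * x) * x ^ N := by
    have : (1 / x) ^ N * x ^ N = 1 := by
      rw [← mul_pow, one_div_mul_cancel hxpos.ne', one_pow]
    rw [← this]
    gcongr
  have h7 : C * Real.exp (-δ * x) * x ^ N ≤ |C| * Real.exp (-δ * x) * x ^ N := by
    gcongr
    exact le_abs_self C
  have h8 : |C| * (1 / δ) ^ N * ((fun x : ℝ => x ^ N * Real.exp (-x)) ∘ fun x => δ * x) x =
      |C| * Real.exp (-δ * x) * x ^ N := by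
    simp only [Function.comp]
    rw [mul_pow, show -(δ * x) = -δ * x by ring, one_div, inv_pow]
    field_simp
  rw [h8] at hx1
  linarith

theorem no_fg {k : ℕ} (g : Fin k → BA (m + 2))
    (hcl : closure ((Ideal.span (Set.range g) : Ideal (BA (m + 2))) :
        Set (BA (m + 2))) =
      closure ((I0 : Ideal (BA (m + 2))) : Set (BA (m + 2)))) : False := by
  have hg : ∀ t, g t ∈ closure ((I0 : Ideal (BA (m + 2))) : Set (BA (m + 2))) := by
    intro t
    rw [← hcl]
    exact subset_closure (Ideal.subset_span (Set.mem_range_self t))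
  have happ : ∀ ε : ℝ, 0 < ε → ∃ a : Fin (k + 1) → Fin k → BA (m + 2),
      ∀ i : Fin (k + 1), ‖fm i - ∑ t, a i t * g t‖ < ε := by
    intro ε hε
    have h1 : ∀ i : Fin (k + 1), ∃ a : Fin k → BA (m + 2), ‖fm i - ∑ t, a t * g t‖ < ε := by
      intro i
      have h2 : (fm i : BA (m + 2)) ∈ closure ((Ideal.span (Set.range g) :
          Ideal (BA (m + 2))) : Set (BA (m + 2))) := by
        rw [hcl]
        exact subset_closure (Ideal.subset_span (Set.mem_range_self _))
      obtain ⟨f', hf', hd⟩ := Metric.mem_closure_iff.1 h2 ε hε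
      obtain ⟨c, hc⟩ := (Ideal.mem_span_range_iff_exists_fun).1 hf'
      refine ⟨c, ?_⟩
      rw [hc]
      exact lt_of_eq_of_lt (dist_eq_norm _ f').symm hd
    choose a ha using h1
    exact ⟨a, ha⟩
  have hmain : ∀ u : ℂ, 1 ≤ u.re →
      ‖(Matrix.of fun i j : Fin (k + 1) => co j (fm i : BA (m + 2)) u).det‖ ≤
        C0 k * Real.exp (Ssum k + sq k) * Real.exp (-(Ssum k + sq k) * u.re) := by
    intro u hu
    have hu' : 1 / 2 < u.re := by linarith
    refine le_of_forall_pos_le_add (fun η hη => ?_)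
    have hC0 := C0_nonneg k
    set ε : ℝ := min 1 (η / (C0 k + 1)) with hε
    have hε0 : 0 < ε := by rw [hε]; positivity
    have hε1 : ε ≤ 1 := min_le_left _ _
    have hε2 : C0 k * ε ≤ η := by
      have h1 : ε ≤ η / (C0 k + 1) := min_le_right _ _
      rw [le_div_iff₀ (by positivity)] at h1
      nlinarith
    obtain ⟨a, ha⟩ := happ ε hε0
    have ha3 : ∀ i, ‖∑ t, a i t * g t‖ ≤ 3 := by
      intro i
      have h1 := norm_sub_le (fm i : BA (m + 2)) (fm i - ∑ t, a i t * g t)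
      have h2 : (fm i : BA (m + 2)) - (fm i - ∑ t, a i t * g t) = ∑ t, a i t * g t :=
        sub_sub_cancel (fm i : BA (m + 2)) (∑ t, a i t * g t)
      rw [h2] at h1
      have h3 := norm_fm_le (m := m) i
      have h4 := ha i
      linarith
    have h1 := det_key g hg a ha3 u hu
    have hpow : ∀ j : Fin (k + 1), (2 : ℝ) ^ (j : ℕ) ≤ 2 ^ k :=
      fun j => pow_le_pow_right₀ (by norm_num) (by omega)
    have h2 := det_sub_le (Matrix.of fun i j : Fin (k + 1) => co j (fm i : BA (m + 2)) u)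
      (Matrix.of fun i j : Fin (k + 1) => co j (∑ t, a i t * g t) u) (fun _ => 3 * 2 ^ k) ε
      (fun _ => by positivity) hε0.le ?_ ?_ ?_
    · have h3 : ((k + 1).factorial : ℝ) * ((k + 1 : ℕ) * ε * ∏ _j : Fin (k + 1), (3 * 2 ^ k : ℝ)) =
          C0 k * ε := by
        unfold C0
        ring
      rw [h3] at h2
      have h4 : ∀ X Y : ℂ, ‖X‖ ≤ ‖Y‖ + ‖X - Y‖ := by
        intro X Y
        calc ‖X‖ = ‖Y + (X - Y)‖ := by ring_nf
          _ ≤ _ := norm_add_le _ _
      refine (h4 _ _).trans (add_le_add h1 (h2.trans hε2))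
    · intro i j
      rw [Matrix.of_apply]
      refine (norm_co_le j _ hu').trans ?_
      have h3 := norm_fm_le (m := m) i
      have h4 := hpow j
      have h5 : (0 : ℝ) < 2 ^ (j : ℕ) := by positivity
      nlinarith
    · intro i j
      rw [Matrix.of_apply]
      refine (norm_co_le j _ hu').trans ?_
      have h3 := ha3 i
      have h4 := hpow j
      have h5 : (0 : ℝ) < 2 ^ (j : ℕ) := by positivity
      nlinarith
    · intro i j
      rw [Matrix.of_apply, Matrix.of_apply, ← co_sub _ _ _ hu']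
      refine (norm_co_le j _ hu').trans ?_
      have h3 := (ha i).le
      have h4 := hpow j
      have h5 : (0 : ℝ) < 2 ^ (j : ℕ) := by positivity
      calc 2 ^ (j : ℕ) * ‖fm i - ∑ t, a i t * g t‖ ≤ 2 ^ k * ε := by gcongr
        _ ≤ ε * (3 * 2 ^ k) := by nlinarith [pow_pos (show (0 : ℝ) < 2 by norm_num) k]
  refine growth_contra (C0 k * Real.exp (Ssum k + sq k)) (sq k) ((k + 1) * (k + 1)) (sq_pos k)
    (fun x hx => ?_)
  have h1 := det_fm (m := m) k x hx
  have h2 := hmain (x : ℂ) (by simpa using hx)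
  rw [Complex.ofReal_re] at h2
  have h3 : Real.exp (-(Ssum k + sq k) * x) = Real.exp (-sq k * x) * Real.exp (-Ssum k * x) := by
    rw [← Real.exp_add]; congr 1; ring
  rw [h3] at h2
  have h4 := h1.trans h2
  have h5 : 0 < Real.exp (-Ssum k * x) := Real.exp_pos _
  have h6 : (1 / x) ^ ((k + 1) * (k + 1)) * Real.exp (-Ssum k * x) ≤
      (C0 k * Real.exp (Ssum k + sq k) * Real.exp (-sq k * x)) * Real.exp (-Ssum k * x) := by
    calc _ ≤ _ := h4
      _ = _ := by ring
  exact le_of_mul_le_mul_right h6 h5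

/-- The closed ideal. -/
noncomputable def J0 : Ideal (BA (m + 2)) where
  carrier := closure ((I0 : Ideal (BA (m + 2))) : Set (BA (m + 2)))
  add_mem' := by
    intro a b ha hb
    exact map_mem_closure₂ continuous_add ha hb (fun a ha b hb => Ideal.add_mem _ ha hb)
  zero_mem' := subset_closure (zero_mem (I0 : Ideal (BA (m + 2))))
  smul_mem' := by
    intro c x hx
    have hc : Continuous (fun x : BA (m + 2) => c * x) := by
      have h1 : Continuous (fun x : BA (m + 2) => c.1 * x.1) :=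
        continuous_const.mul continuous_subtype_val
      exact h1.subtype_mk _
    exact map_mem_closure hc hx (fun x hx => Ideal.mul_mem_left _ c hx)

theorem coe_J0 : ((J0 : Ideal (BA (m + 2))) : Set (BA (m + 2))) =
    closure ((I0 : Ideal (BA (m + 2))) : Set (BA (m + 2))) := rfl

theorem mem_normClosure_iff (S : Set (BA n)) (f : BA n) :
    f.1 ∈ normClosure n (Subtype.val '' S) ↔ f ∈ closure S := by
  rw [Metric.mem_closure_iff]
  constructor
  · rintro ⟨_, h⟩ ε hε
    obtain ⟨_, ⟨g, hg, rfl⟩, hd⟩ := h ε hε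
    refine ⟨g, hg, ?_⟩
    rw [Subtype.dist_eq, dist_eq_norm]
    exact hd
  · intro h
    refine ⟨f.2, fun ε hε => ?_⟩
    obtain ⟨g, hg, hd⟩ := h ε hε
    rw [Subtype.dist_eq, dist_eq_norm] at hd
    exact ⟨g.1, ⟨g, hg, rfl⟩, hd⟩

theorem genIdeal_eq {k : ℕ} (g : Fin k → BA n) :
    genIdeal n k (fun t => (g t).1) =
      Subtype.val '' ((Ideal.span (Set.range g) : Ideal (BA n)) : Set (BA n)) := by
  ext f
  constructor
  · rintro ⟨a, ha, rfl⟩
    refine ⟨∑ t, (⟨a t, ha t⟩ : BA n) * g t, ?_, ?_⟩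
    · exact (Ideal.mem_span_range_iff_exists_fun).2 ⟨fun t => ⟨a t, ha t⟩, rfl⟩
    · simp
  · rintro ⟨f, hf, rfl⟩
    obtain ⟨c, hc⟩ := (Ideal.mem_span_range_iff_exists_fun).1 hf
    refine ⟨fun t => (c t).1, fun t => (c t).2, ?_⟩
    rw [← hc]
    simp

/-- There are a boundary point `ζ` and a closed ideal `J` of the ball algebra with zero set `{ζ}`
which is not the norm closure of a finitely generated ideal. -/
theorem result : ∀ n : ℕ, 2 ≤ n → ∃ (ζ : E n) (J : Set (CB n)),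
    ‖ζ‖ = 1 ∧ IsClosedIdeal n J ∧ zeroSet n J = {ζ} ∧
    ∀ (k : ℕ) (g : Fin k → CB n), (∀ t, g t ∈ ballAlgebra n) →
      J ≠ normClosure n (genIdeal n k g) := by
  intro n hn
  obtain ⟨m, rfl⟩ : ∃ m, n = m + 2 := ⟨n - 2, by omega⟩
  refine ⟨EuclideanSpace.single 0 1,
    Subtype.val '' ((J0 : Ideal (BA (m + 2))) : Set (BA (m + 2))), by simp, ?_, ?_, ?_⟩
  · refine ⟨?_, ?_, ?_, ?_, ?_⟩
    · rintro _ ⟨f, _, rfl⟩
      exact f.2
    · exact ⟨0, zero_mem J0, rfl⟩
    · rintro _ ⟨f, hf, rfl⟩ _ ⟨g, hg, rfl⟩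
      exact ⟨f + g, Ideal.add_mem _ hf hg, rfl⟩
    · rintro a ha _ ⟨f, hf, rfl⟩
      exact ⟨(⟨a, ha⟩ : BA (m + 2)) * f, Ideal.mul_mem_left _ _ hf, rfl⟩
    · intro f hf
      obtain ⟨f', rfl⟩ : ∃ f' : BA (m + 2), f'.1 = f := ⟨⟨f, hf.1⟩, rfl⟩
      have h1 : f' ∈ closure ((J0 : Ideal (BA (m + 2))) : Set (BA (m + 2))) :=
        (mem_normClosure_iff _ f').1 hf
      rw [coe_J0, closure_closure, ← coe_J0] at h1
      exact ⟨f', h1, rfl⟩
  · ext w
    rw [mem_singleton_iff]
    constructor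
    · rintro ⟨hw, h⟩
      have h1 := h _ ⟨fm 0, by
        rw [coe_J0]
        exact subset_closure (Ideal.subset_span (Set.mem_range_self _)), rfl⟩
      change (w 1) ^ 0 * qf 0 (w 0) = 0 at h1
      rw [pow_zero, one_mul, qf, mul_eq_zero, or_iff_left (Complex.exp_ne_zero _), sub_eq_zero] at h1
      have h2 : ‖w‖ ^ 2 ≤ 1 := by
        have h3 : ‖w‖ ≤ 1 := mem_closedBall_zero_iff.1 hw
        have := norm_nonneg w
        nlinarith
      rw [EuclideanSpace.norm_sq_eq, Fin.sum_univ_succ, ← h1, norm_one] at h2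
      have h4 : ∑ i : Fin (m + 1), ‖w i.succ‖ ^ 2 = 0 := by
        have : 0 ≤ ∑ i : Fin (m + 1), ‖w i.succ‖ ^ 2 := by positivity
        linarith
      rw [Finset.sum_eq_zero_iff_of_nonneg (fun i _ => by positivity)] at h4
      ext i
      refine Fin.cases ?_ (fun i => ?_) i
      · rw [← h1]; simp
      · have := h4 i (Finset.mem_univ _)
        have h5 : w i.succ = 0 := by simpa using this
        rw [h5]
        simp [Fin.succ_ne_zero]
    · intro hw
      have hwc : w ∈ closedBall (0 : E (m + 2)) 1 := by rw [hw]; simp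
      refine ⟨hwc, ?_⟩
      rintro _ ⟨f, hf, rfl⟩
      rw [coe_J0] at hf
      have hcl : IsClosed {f : BA (m + 2) | f.1 ⟨w, hwc⟩ = 0} := by
        have hc : Continuous (fun f : BA (m + 2) => f.1 ⟨w, hwc⟩) :=
          (continuous_eval_const (⟨w, hwc⟩ : closedBall (0 : E (m + 2)) 1)).comp
            continuous_subtype_val
        exact isClosed_singleton.preimage hc
      refine closure_minimal ?_ hcl hf
      intro f hf
      change f ∈ I0 at hf
      change f.1 ⟨w, hwc⟩ = 0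
      induction hf using Submodule.span_induction with
      | mem x hx =>
        obtain ⟨i, rfl⟩ := hx
        change (w 1) ^ i * qf i (w 0) = 0
        rw [hw]
        simp [qf]
      | zero => rfl
      | add x y _ _ hx hy =>
        change x.1 ⟨w, hwc⟩ + y.1 ⟨w, hwc⟩ = 0
        rw [hx, hy, add_zero]
      | smul a x _ hx =>
        change a.1 ⟨w, hwc⟩ * x.1 ⟨w, hwc⟩ = 0
        rw [hx, mul_zero]
  · intro k g hg h
    set g' : Fin k → BA (m + 2) := fun t => ⟨g t, hg t⟩ with hg'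
    have h0 : genIdeal (m + 2) k g = Subtype.val ''
        ((Ideal.span (Set.range g') : Ideal (BA (m + 2))) : Set (BA (m + 2))) := genIdeal_eq g'
    rw [h0] at h
    refine no_fg g' ?_
    ext f
    rw [← mem_normClosure_iff, ← h, ← coe_J0]
    constructor
    · rintro ⟨f', hf', he⟩
      rwa [← Subtype.ext he]
    · intro hf
      exact ⟨f, hf, rfl⟩

end Pool.Agent.Results.MP_d61c0a_an.OnePoint
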